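import Mathlib

/-!
# Adjoining the Frobenius number to a greedy generating set need not be greedy

Counterexample: `S = {4, 6, 9}` is greedy, its Frobenius number is `11`, and `{4, 6, 9, 11}` is not greedy:
the greedy representation of `27` is `11 + 6 + 6 + 4`, while `27 = 9 + 9 + 9`.
-/

set_option autoImplicit false

open Finset Classical

namespace Pool.Agent.Results.MP_8ea6c6_co.NotGreedy

/-- `Gen S k`: the number `k` is in the semigroup `⟨S⟩`. A representation is a vector of nonnegative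
integer coefficients `a s`, `s ∈ S`. -/
def Gen (S : Finset ℕ) (k : ℕ) : Prop := ∃ a : ℕ → ℕ, ∑ s ∈ S, a s * s = k

/-- The least cost `∑ a s` of a representation of `k`. -/
noncomputable def minCost (S : Finset ℕ) (k : ℕ) : ℕ :=
  sInf {c | ∃ a : ℕ → ℕ, ∑ s ∈ S, a s * s = k ∧ ∑ s ∈ S, a s = c}

/-- The largest `q` with `k - q * s ∈ ⟨S⟩` (searched among `q ≤ k`, which is enough for `s ≥ 1`). -/
noncomputable def largest (S : Finset ℕ) (s k : ℕ) : ℕ :=
  Nat.findGreatest (fun q => q * s ≤ k ∧ Gen S (k - q * s)) k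

/-- The cost of the greedy procedure, where the generators still to be visited are given as a list: for
the first generator `s` of the list take the largest `q` with `k - q * s ∈ ⟨S⟩`, replace `k` by
`k - q * s`, and go on with the rest of the list; stop when `k = 0`. -/
noncomputable def greedyAux (S : Finset ℕ) : List ℕ → ℕ → ℕ
  | [], _ => 0
  | s :: l, k => if k = 0 then 0 else largest S s k + greedyAux S l (k - largest S s k * s)

/-- The greedy cost: the generators are visited in decreasing order. -/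
noncomputable def greedyCost (S : Finset ℕ) (k : ℕ) : ℕ := greedyAux S (S.sort (· ≥ ·)) k

/-- `S` is greedy. -/
def IsGreedy (S : Finset ℕ) : Prop := ∀ k, Gen S k → greedyCost S k = minCost S k

/-- The Frobenius number: the largest element of the complement of `⟨S⟩`. -/
noncomputable def frob (S : Finset ℕ) : ℕ := sSup {k | ¬ Gen S k}

theorem sort3 : ({4, 6, 9} : Finset ℕ).sort (· ≥ ·) = [9, 6, 4] := by
  have h : ({4, 6, 9} : Finset ℕ) = ([9, 6, 4] : List ℕ).toFinset := by decide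
  rw [h]
  exact (List.toFinset_sort (r := (· ≥ ·)) (by decide)).2 (by decide)

theorem sort4 : ({4, 6, 9, 11} : Finset ℕ).sort (· ≥ ·) = [11, 9, 6, 4] := by
  have h : ({4, 6, 9, 11} : Finset ℕ) = ([11, 9, 6, 4] : List ℕ).toFinset := by decide
  rw [h]
  exact (List.toFinset_sort (r := (· ≥ ·)) (by decide)).2 (by decide)

/-! ### The semigroup `⟨4,6,9⟩` -/

theorem sum3 (f : ℕ → ℕ) : ∑ s ∈ ({4, 6, 9} : Finset ℕ), f s = f 4 + f 6 + f 9 := by
  rw [Finset.sum_insert (by decide), Finset.sum_insert (by decide), Finset.sum_singleton, add_assoc]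

theorem sum4 (f : ℕ → ℕ) :
    ∑ s ∈ ({4, 6, 9, 11} : Finset ℕ), f s = f 4 + f 6 + f 9 + f 11 := by
  rw [Finset.sum_insert (by decide), Finset.sum_insert (by decide), Finset.sum_insert (by decide),
    Finset.sum_singleton]
  ring

theorem gen3 (k : ℕ) :
    Gen {4, 6, 9} k ↔ (k ≠ 1 ∧ k ≠ 2 ∧ k ≠ 3 ∧ k ≠ 5 ∧ k ≠ 7 ∧ k ≠ 11) := by
  constructor
  · rintro ⟨a, ha⟩
    rw [sum3] at ha
    refine ⟨?_, ?_, ?_, ?_, ?_, ?_⟩ <;> rintro rfl <;> omega
  · rintro ⟨h1, h2, h3, h5, h7, h11⟩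
    have key : ∃ x y z : ℕ, x * 4 + y * 6 + z * 9 = k := by
      have : k % 4 = 0 ∨ k % 4 = 1 ∨ k % 4 = 2 ∨ k % 4 = 3 := by omega
      rcases this with h | h | h | h
      · exact ⟨k / 4, 0, 0, by omega⟩
      · exact ⟨(k - 9) / 4, 0, 1, by omega⟩
      · exact ⟨(k - 6) / 4, 1, 0, by omega⟩
      · exact ⟨(k - 15) / 4, 1, 1, by omega⟩
    obtain ⟨x, y, z, h⟩ := key
    refine ⟨fun s => if s = 4 then x else if s = 6 then y else z, ?_⟩
    rw [sum3]
    simpa using h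

theorem frob3 : frob {4, 6, 9} = 11 := by
  have : IsGreatest {k | ¬ Gen {4, 6, 9} k} 11 := by
    constructor
    · show ¬ Gen {4, 6, 9} 11
      rw [gen3]; omega
    · intro k hk
      have hk' : ¬ Gen {4, 6, 9} k := hk
      rw [gen3] at hk'
      omega
  exact this.csSup_eq

theorem largest_eq {S : Finset ℕ} {s k m : ℕ} (hs : 1 ≤ s) (hm : m * s ≤ k)
    (hg : Gen S (k - m * s)) (hn : ∀ n, m < n → n * s ≤ k → ¬ Gen S (k - n * s)) :
    largest S s k = m := by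
  unfold largest
  rw [Nat.findGreatest_eq_iff]
  refine ⟨?_, fun _ => ⟨hm, hg⟩, ?_⟩
  · calc m = m * 1 := (mul_one m).symm
      _ ≤ m * s := Nat.mul_le_mul_left _ hs
      _ ≤ k := hm
  · rintro n hn1 - ⟨h1, h2⟩
    exact hn n hn1 h1 h2

/-- the greedy cost of `9 c + w` for the Apéry elements `w` -/
theorem greedyCost3 (c w cost : ℕ)
    (h : (w = 0 ∧ cost = 0) ∨ (w = 4 ∧ cost = 1) ∨ (w = 6 ∧ cost = 1) ∨ (w = 8 ∧ cost = 2) ∨
      (w = 10 ∧ cost = 2) ∨ (w = 12 ∧ cost = 2) ∨ (w = 14 ∧ cost = 3) ∨ (w = 16 ∧ cost = 3) ∨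
      (w = 20 ∧ cost = 4)) :
    greedyCost {4, 6, 9} (c * 9 + w) = c + cost := by
  unfold greedyCost
  rw [sort3]
  have h9 : largest {4, 6, 9} 9 (c * 9 + w) = c := by
    apply largest_eq (by norm_num) (by omega)
    · rw [gen3]; omega
    · intro n hn hn9
      rw [gen3]; omega
  by_cases h0 : c * 9 + w = 0
  · simp only [greedyAux, h0, if_true]; omega
  rw [greedyAux, if_neg h0, h9]
  congr 1
  have : c * 9 + w - c * 9 = w := by omega
  rw [this]
  clear h9 this h0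
  have l6 : ∀ m, m * 6 ≤ w → Gen {4, 6, 9} (w - m * 6) →
      (∀ n, m < n → n * 6 ≤ w → ¬ Gen {4, 6, 9} (w - n * 6)) → largest {4, 6, 9} 6 w = m :=
    fun m => largest_eq (by norm_num)
  have l4 : ∀ k m, k = m * 4 → largest {4, 6, 9} 4 k = m := by
    intro k m hk
    apply largest_eq (by norm_num) (by omega)
    · rw [gen3]; omega
    · intro n hn hn9
      omega
  have fin : ∀ k m, k = m * 4 → greedyAux {4, 6, 9} [4] k = m := by
    intro k m hk
    by_cases h0 : k = 0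
    · simp only [greedyAux, h0, if_true]; omega
    · rw [greedyAux, if_neg h0, l4 k m hk, greedyAux]; omega
  have main : ∀ m n, w = m * 6 + n * 4 →
      (∀ j, m < j → j * 6 ≤ w → ¬ Gen {4, 6, 9} (w - j * 6)) →
      greedyAux {4, 6, 9} [6, 4] w = m + n := by
    intro m n hw hj
    by_cases h0 : w = 0
    · rw [greedyAux, if_pos h0]; omega
    · have e := l6 m (by omega) (by rw [gen3]; omega) hj
      rw [greedyAux, if_neg h0, e, fin (w - m * 6) n (by omega)]
  rcases h with ⟨rfl, rfl⟩ | ⟨rfl, rfl⟩ | ⟨rfl, rfl⟩ | ⟨rfl, rfl⟩ | ⟨rfl, rfl⟩ | ⟨rfl, rfl⟩ |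
    ⟨rfl, rfl⟩ | ⟨rfl, rfl⟩ | ⟨rfl, rfl⟩
  · exact main 0 0 rfl (fun j _ _ => by omega)
  · exact main 0 1 rfl (fun j _ _ => by omega)
  · exact main 1 0 rfl (fun j _ _ => by omega)
  · exact main 0 2 rfl (fun j _ _ => by rw [gen3]; omega)
  · exact main 1 1 rfl (fun j _ _ => by omega)
  · exact main 2 0 rfl (fun j _ _ => by omega)
  · exact main 1 2 rfl (fun j _ _ => by rw [gen3]; omega)
  · exact main 2 1 rfl (fun j _ _ => by omega)
  · exact main 2 2 rfl (fun j _ _ => by rw [gen3]; omega)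

/-- decomposition of an element of `⟨4,6,9⟩` -/
theorem decomp {k : ℕ} (hk : Gen {4, 6, 9} k) : ∃ c w cost : ℕ, k = c * 9 + w ∧
    ((w = 0 ∧ cost = 0) ∨ (w = 4 ∧ cost = 1) ∨ (w = 6 ∧ cost = 1) ∨ (w = 8 ∧ cost = 2) ∨
      (w = 10 ∧ cost = 2) ∨ (w = 12 ∧ cost = 2) ∨ (w = 14 ∧ cost = 3) ∨ (w = 16 ∧ cost = 3) ∨
      (w = 20 ∧ cost = 4)) := by
  rw [gen3] at hk
  have : k % 9 = 0 ∨ k % 9 = 1 ∨ k % 9 = 2 ∨ k % 9 = 3 ∨ k % 9 = 4 ∨ k % 9 = 5 ∨ k % 9 = 6 ∨
    k % 9 = 7 ∨ k % 9 = 8 := by omega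
  rcases this with h | h | h | h | h | h | h | h | h
  · exact ⟨k / 9, 0, 0, by omega, by omega⟩
  · exact ⟨(k - 10) / 9, 10, 2, by omega, by omega⟩
  · exact ⟨(k - 20) / 9, 20, 4, by omega, by omega⟩
  · exact ⟨(k - 12) / 9, 12, 2, by omega, by omega⟩
  · exact ⟨k / 9, 4, 1, by omega, by omega⟩
  · exact ⟨(k - 14) / 9, 14, 3, by omega, by omega⟩
  · exact ⟨k / 9, 6, 1, by omega, by omega⟩
  · exact ⟨(k - 16) / 9, 16, 3, by omega, by omega⟩
  · exact ⟨k / 9, 8, 2, by omega, by omega⟩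

theorem gcAdd (x y z : ℕ) : greedyCost {4, 6, 9} (x * 4 + y * 6 + z * 9) ≤ x + y + z := by
  have gen : ∀ x y z : ℕ, Gen {4, 6, 9} (x * 4 + y * 6 + z * 9) := by
    intro x y z
    rw [gen3]; omega
  have g0 : greedyCost {4, 6, 9} 0 = 0 := greedyCost3 0 0 0 (by omega)
  have step : ∀ k t, Gen {4, 6, 9} k → (t = 4 ∨ t = 6 ∨ t = 9) →
      greedyCost {4, 6, 9} (k + t) ≤ greedyCost {4, 6, 9} k + 1 := by
    intro k t hk ht
    have hk2 : Gen {4, 6, 9} (k + t) := by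
      rw [gen3] at hk ⊢
      omega
    obtain ⟨c, w, cost, h1, h2⟩ := decomp hk
    obtain ⟨c', w', cost', h1', h2'⟩ := decomp hk2
    rw [h1', greedyCost3 c' w' cost' h2', h1, greedyCost3 c w cost h2]
    omega
  induction x with
  | zero =>
    induction y with
    | zero =>
      induction z with
      | zero => simp [g0]
      | succ z ih =>
        have h := step _ 9 (gen 0 0 z) (by omega)
        have e : 0 * 4 + 0 * 6 + (z + 1) * 9 = 0 * 4 + 0 * 6 + z * 9 + 9 := by ring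
        rw [e]; omega
    | succ y ih =>
      have h := step _ 6 (gen 0 y z) (by omega)
      have e : 0 * 4 + (y + 1) * 6 + z * 9 = 0 * 4 + y * 6 + z * 9 + 6 := by ring
      rw [e]; omega
  | succ x ih =>
    have h := step _ 4 (gen x y z) (by omega)
    have e : (x + 1) * 4 + y * 6 + z * 9 = x * 4 + y * 6 + z * 9 + 4 := by ring
    rw [e]; omega

theorem greedy3 : IsGreedy {4, 6, 9} := by
  intro k hk
  refine (IsLeast.csInf_eq ?_).symm
  constructor
  · -- the greedy cost is the cost of a representation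
    obtain ⟨c, w, cost, h1, h2⟩ := decomp hk
    have h3 := greedyCost3 c w cost h2
    rw [h1, h3]
    have : ∃ x y : ℕ, w = x * 4 + y * 6 ∧ cost = x + y := by
      rcases h2 with ⟨rfl, rfl⟩ | ⟨rfl, rfl⟩ | ⟨rfl, rfl⟩ | ⟨rfl, rfl⟩ | ⟨rfl, rfl⟩ | ⟨rfl, rfl⟩ |
        ⟨rfl, rfl⟩ | ⟨rfl, rfl⟩ | ⟨rfl, rfl⟩
      · exact ⟨0, 0, rfl, rfl⟩
      · exact ⟨1, 0, rfl, rfl⟩
      · exact ⟨0, 1, rfl, rfl⟩
      · exact ⟨2, 0, rfl, rfl⟩
      · exact ⟨1, 1, rfl, rfl⟩
      · exact ⟨0, 2, rfl, rfl⟩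
      · exact ⟨2, 1, rfl, rfl⟩
      · exact ⟨1, 2, rfl, rfl⟩
      · exact ⟨2, 2, rfl, rfl⟩
    obtain ⟨x, y, hx, hy⟩ := this
    refine ⟨fun s => if s = 4 then x else if s = 6 then y else c, ?_, ?_⟩
    · rw [sum3]; simp; omega
    · rw [sum3]; simp; omega
  · rintro c ⟨a, ha, rfl⟩
    rw [sum3] at ha
    rw [sum3, ← ha]
    exact gcAdd _ _ _

/-! ### `{4, 6, 9, 11}` is not greedy -/

theorem not_gen4 {k : ℕ} (h : k = 1 ∨ k = 2 ∨ k = 3 ∨ k = 5 ∨ k = 7) : ¬ Gen {4, 6, 9, 11} k := by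
  rintro ⟨a, ha⟩
  rw [sum4] at ha
  have h4 : a 4 ≤ 1 := by omega
  have h6 : a 6 ≤ 1 := by omega
  have h9 : a 9 = 0 := by omega
  have h11 : a 11 = 0 := by omega
  rw [h9, h11] at ha
  rcases Nat.le_one_iff_eq_zero_or_eq_one.1 h4 with e | e <;>
    rcases Nat.le_one_iff_eq_zero_or_eq_one.1 h6 with e' | e' <;> rw [e, e'] at ha <;> omega

theorem gen4 {k : ℕ} (x y : ℕ) (h : k = x * 4 + y * 6) : Gen {4, 6, 9, 11} k := by
  refine ⟨fun s => if s = 4 then x else if s = 6 then y else 0, ?_⟩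
  rw [sum4]; simp; omega

theorem greedyCost4 : greedyCost {4, 6, 9, 11} 27 = 4 := by
  unfold greedyCost
  rw [sort4]
  have e11 : largest {4, 6, 9, 11} 11 27 = 1 := by
    apply largest_eq (by norm_num) (by norm_num) (gen4 1 2 (by norm_num))
    intro n h1 h2
    exact not_gen4 (by omega)
  have e9 : largest {4, 6, 9, 11} 9 16 = 0 := by
    apply largest_eq (by norm_num) (by norm_num) (gen4 1 2 (by norm_num))
    intro n h1 h2
    exact not_gen4 (by omega)
  have e6 : largest {4, 6, 9, 11} 6 16 = 2 := by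
    apply largest_eq (by norm_num) (by norm_num) (gen4 1 0 (by norm_num))
    intro n h1 h2
    omega
  have e4 : largest {4, 6, 9, 11} 4 4 = 1 := by
    apply largest_eq (by norm_num) (by norm_num) (gen4 0 0 (by norm_num))
    intro n h1 h2
    omega
  have a4 : greedyAux {4, 6, 9, 11} [4] 4 = 1 := by
    rw [greedyAux, if_neg (by norm_num), e4, greedyAux]
  have a6 : greedyAux {4, 6, 9, 11} [6, 4] 16 = 3 := by
    rw [greedyAux, if_neg (by norm_num), e6, a4]
  have a9 : greedyAux {4, 6, 9, 11} [9, 6, 4] 16 = 3 := by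
    rw [greedyAux, if_neg (by norm_num), e9]
    show 0 + greedyAux {4, 6, 9, 11} [6, 4] 16 = 3
    rw [a6]
  rw [greedyAux, if_neg (by norm_num), e11]
  show 1 + greedyAux {4, 6, 9, 11} [9, 6, 4] 16 = 4
  rw [a9]

theorem notGreedy4 : ¬ IsGreedy {4, 6, 9, 11} := by
  intro h
  have h27 : (fun s : ℕ => if s = 9 then 3 else 0) 9 = 3 := rfl
  have r1 : ∑ s ∈ ({4, 6, 9, 11} : Finset ℕ), (fun s : ℕ => if s = 9 then 3 else 0) s * s = 27 := by
    rw [sum4]; simp
  have r2 : ∑ s ∈ ({4, 6, 9, 11} : Finset ℕ), (fun s : ℕ => if s = 9 then 3 else 0) s = 3 := by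
    rw [sum4]; simp
  have h1 := h 27 ⟨_, r1⟩
  have h2 : minCost {4, 6, 9, 11} 27 ≤ 3 := Nat.sInf_le ⟨_, r1, r2⟩
  rw [greedyCost4] at h1
  omega

/-- `{4, 6, 9}` is greedy, its Frobenius number is `11`, and `{4, 6, 9, 11}` is not greedy; in particular
it is not true that for every finite set `S` of positive integers with gcd `1` and `1 ∉ S`, if `S` is
greedy then `S ∪ {F(⟨S⟩)}` is greedy. -/
theorem result :
    (IsGreedy {4, 6, 9} ∧ frob {4, 6, 9} = 11 ∧ ¬ IsGreedy {4, 6, 9, 11}) ∧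
      ¬ ∀ S : Finset ℕ, (∀ s ∈ S, 0 < s) → S.gcd id = 1 → 1 ∉ S → IsGreedy S →
        IsGreedy (S ∪ {frob S}) := by
  refine ⟨⟨greedy3, frob3, notGreedy4⟩, fun h => ?_⟩
  have h1 := h {4, 6, 9} (by decide) (by decide) (by decide) greedy3
  rw [frob3] at h1
  have e : ({4, 6, 9} : Finset ℕ) ∪ {11} = {4, 6, 9, 11} := by decide
  rw [e] at h1
  exact notGreedy4 h1

end Pool.Agent.Results.MP_8ea6c6_co.NotGreedy
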